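import Pool.Agent.helper83.SB.Spec

open scoped Pointwise ContDiff ENNReal
open MeasureTheory Set Filter Topology

namespace Pool.Agent.helper83.SB

open Pool.Agent.helper83.SC

theorem SAM_ae {n : ℕ} {S : Measure (E n)} (hS : Sph S) (f : E n → ℝ) :
    (Metric.sphere (0 : E n) 1).indicator f =ᵐ[S] f := by
  have h : ∀ᵐ x ∂S, x ∈ Metric.sphere (0 : E n) 1 := by
    rw [ae_iff]
    exact hS.2
  filter_upwards [h] with x hx
  rw [indicator_of_mem hx]

theorem SAM_of (hSHL : SHL_stmt) (hLFT : LFT_stmt) (hSHF : SHF_stmt) (hMNA : MNA_stmt)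
    (hAVG : AVG_stmt) (hMLS : MLS_stmt) (hDEC : DEC_stmt) : SAM_stmt := by
  intro m K hK
  let T : ℝ → Measure (E (m + 1)) := fun ε => ENNReal.ofReal ε⁻¹ • rho K ε
  have hrho : ∀ ε, Sph (rho K ε) := fun ε => (hSHL hK ε).2.2.2.1
  have hTf : ∀ ε, IsFiniteMeasure (T ε) := by
    intro ε
    have := (hrho ε).1
    exact Measure.smul_finite (rho K ε) ENNReal.ofReal_ne_top
  have hTs : ∀ ε, Sph (T ε) := by
    intro ε
    refine ⟨hTf ε, ?_⟩
    show (ENNReal.ofReal ε⁻¹ • rho K ε) _ = 0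
    rw [Measure.smul_apply, (hrho ε).2, smul_zero]
  have hint : ∀ (b : OrthonormalBasis (Fin (m + 1)) ℝ (E (m + 1))) (φ : E m → ℝ), Test φ →
      ∀ ε : ℝ, 0 < ε → ε ≤ 1 → ∫ v, lift b φ v ∂(T ε)
        = ε⁻¹ * ∫ t in Ioc (0 : ℝ) ε, A φ (ft b K t) := by
    intro b φ hφ ε h0 h1
    show ∫ v, lift b φ v ∂(ENNReal.ofReal ε⁻¹ • rho K ε) = _
    rw [integral_smul_measure, ENNReal.toReal_ofReal (inv_nonneg.2 h0.le), hSHF b hK φ hφ ε h0 h1,
      smul_eq_mul]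
  have hmono : ∀ ε ε' : ℝ, 0 < ε → ε ≤ ε' → ε' ≤ 1 → T ε ≤ T ε' := by
    intro ε ε' h0 h1 h2
    apply hMLS (hTs ε) (hTs ε')
    intro b φ hφ
    rw [hint b φ hφ ε h0 (h1.trans h2), hint b φ hφ ε' (h0.trans_le h1) h2]
    obtain ⟨ha, hb⟩ := hMNA b hK φ hφ
    exact (hAVG (fun t => A φ (ft b K t)) _ ha hb).1 ε ε' h0 h1
  obtain ⟨S, hSf, hSle, hSU, hSg⟩ := hDEC T (fun ε _ => hTf ε) hmono
  have hSs : Sph S := by
    refine ⟨hSf, ?_⟩
    have h := hSle 1 one_pos le_rfl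
    exact le_antisymm ((Measure.le_iff'.1 h _).trans (hTs 1).2.le) bot_le
  refine ⟨S, hSs, ?_, ?_⟩
  · intro b φ hφ
    obtain ⟨hm, h0, ⟨C, hC⟩, -⟩ := hLFT b hφ
    set g : E (m + 1) → ℝ := (Metric.sphere (0 : E (m + 1)) 1).indicator (lift b φ) with hg
    have hgm : Measurable g := hm.indicator Metric.isClosed_sphere.measurableSet
    have hgb : ∃ C, ∀ x, |g x| ≤ C := by
      refine ⟨max C 0, fun x => ?_⟩
      by_cases hx : x ∈ Metric.sphere (0 : E (m + 1)) 1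
      · rw [hg, indicator_of_mem hx, abs_of_nonneg (h0 x)]
        exact (hC x (by simpa using hx)).trans (le_max_left _ _)
      · rw [hg, indicator_of_notMem hx, abs_zero]
        exact le_max_right _ _
    have h1 := hSg g hgm hgb
    have h2 : ∫ x, g x ∂S = ∫ v, lift b φ v ∂S := integral_congr_ae (SAM_ae hSs _)
    obtain ⟨ha, hb⟩ := hMNA b hK φ hφ
    have h3 := (hAVG (fun t => A φ (ft b K t)) _ ha hb).2
    have h4 : (fun ε : ℝ => ∫ x, g x ∂(T ε)) =ᶠ[𝓝[>] 0]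
        fun s : ℝ => s⁻¹ * ∫ x in Ioc (0 : ℝ) s, A φ (ft b K x) := by
      have : ∀ᶠ ε : ℝ in 𝓝[>] (0 : ℝ), ε ∈ Ioc (0 : ℝ) 1 :=
        Ioc_mem_nhdsGT one_pos
      filter_upwards [this] with ε hε
      rw [← hint b φ hφ ε hε.1 hε.2]
      exact integral_congr_ae (SAM_ae (hTs ε) _)
    rw [← h2]
    exact tendsto_nhds_unique (h1.congr' h4) h3
  · intro U hU
    refine (hSU U hU).congr' ?_
    filter_upwards [self_mem_nhdsWithin] with ε hε
    have hε' : (0 : ℝ) < ε := hε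
    show ((ENNReal.ofReal ε⁻¹ • rho K ε) U).toReal = _
    rw [Measure.smul_apply, smul_eq_mul, ENNReal.toReal_mul,
      ENNReal.toReal_ofReal (inv_nonneg.2 hε'.le)]
    field_simp

end Pool.Agent.helper83.SB
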